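import Pool.Agent.Q105.PH.Fin

set_option autoImplicit false

/-!
# Congruent polyhedra from perimeter-halving foldings (MP_d67387_co)

For every convex polygon, every congruence class of polyhedra contains the polyhedra folded from only
finitely many perimeter-halving gluings (the negated form of Q1 is true).

The polygon, the parametrisation `b` of its boundary by arc length, the gluing at `b x` and the
distance `gdist x` of the glued surface are defined in `Pool.Agent.Q105.PH.Defs`.

Proof.  The singular points of the glued surface are recognised by its metric: a point is regular if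
for all small `s` it is the midpoint of two points at distance `2 s`.  So an isometry between two of
the surfaces maps fold points and vertices of the polygon to points of a finite set; hence the fold
points of infinitely many isometric surfaces stay away from the vertices.  By a compactness argument
there are two isometric surfaces, folded at different points `b x`, `b y` of the same edge, with an
isometry which moves all points by very little and maps `b x` to `b y` and the end `v` of the edge to
itself.  Inside the polygon the isometry is a rigid motion, and this rigid motion maps `b x` to `b y`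
and fixes `v`; so `b x` and `b y` have the same distance from `v`, a contradiction.
-/

namespace Pool.Agent.Results.MP_d67387_co.FinitelyManyCongruent

open Set Q105.PH Q105.PH.ConvexPolygon

/-- The points of the polygon, with the distance of the surface glued at `b x`. -/
structure Pt (G : ConvexPolygon) (x : ℝ) where
  val : ℂ
  mem : val ∈ G.carrier

noncomputable instance (G : ConvexPolygon) (x : ℝ) : PseudoMetricSpace (Pt G x) where
  dist p q := G.gdist x p.val q.val
  dist_self p := gdist_self G x p.val
  dist_comm p q := gdist_comm G x p.val q.val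
  dist_triangle p q r := gdist_triangle p.mem q.mem r.mem

/-- The surface obtained from the polygon by the perimeter-halving gluing at `b x`: the metric space
of the points of the polygon, where points at distance zero are identified. -/
abbrev Surface (G : ConvexPolygon) (x : ℝ) : Type := SeparationQuotient (Pt G x)

/-- The space `ℝ³`. -/
abbrev E3 : Type := EuclideanSpace ℝ (Fin 3)

/-- The length distance in a set `S`: the infimum of the lengths of the paths in `S` from `p`
to `q`. -/
noncomputable def pathDist (S : Set E3) (p q : E3) : ENNReal :=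
  ⨅ (γ : ℝ → E3) (_ : ContinuousOn γ (Icc 0 1)) (_ : ∀ t ∈ Icc (0 : ℝ) 1, γ t ∈ S) (_ : γ 0 = p)
    (_ : γ 1 = q), eVariationOn γ (Icc 0 1)

/-- The two sides of a flat polygon `Q` in space, with the side `true` without the relative
boundary, since the two sides have the boundary in common. -/
def twoSides (Q : Set E3) : Set (E3 × Bool) :=
  {a | a.1 ∈ Q ∧ (a.2 = true → a.1 ∉ intrinsicFrontier ℝ Q)}

/-- The distance on the doubly covered polygon `Q`: points on different sides are joined by paths
through the relative boundary. -/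
noncomputable def twoSidesDist (Q : Set E3) (a c : E3 × Bool) : ℝ :=
  if a.2 = c.2 then dist a.1 c.1
  else sInf {d | ∃ r ∈ intrinsicFrontier ℝ Q, d = dist a.1 r + dist r c.1}

/-- `Q` is a convex polyhedron, or a flat convex polygon covered twice, and the metric space `M` is
isometric to its surface. -/
def IsSurfaceOf (M : Type) [MetricSpace M] (Q : Set E3) : Prop :=
  (∃ F : Finset E3, Q = convexHull ℝ (F : Set E3)) ∧
    (((interior Q).Nonempty ∧ ∃ f : M → E3, range f = frontier Q ∧
        ∀ p q, ENNReal.ofReal (dist p q) = pathDist (frontier Q) (f p) (f q)) ∨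
      (Module.finrank ℝ (vectorSpan ℝ Q) = 2 ∧ ∃ f : M → E3 × Bool, range f = twoSides Q ∧
        ∀ p q, dist p q = twoSidesDist Q (f p) (f q)))

/-- The convex polyhedron `Q` (possibly flat and covered twice) is folded from the polygon by the
perimeter-halving gluing at `b x`. -/
def IsFolding (G : ConvexPolygon) (x : ℝ) (Q : Set E3) : Prop := IsSurfaceOf (Surface G x) Q

/-- Congruence of sets in space. -/
def Congruent (Q Q' : Set E3) : Prop := ∃ T : E3 ≃ᵢ E3, T '' Q = Q'

theorem pathDist_le (T : E3 ≃ᵢ E3) {S S' : Set E3} (h : T '' S = S') (p q : E3) :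
    pathDist S' (T p) (T q) ≤ pathDist S p q := by
  unfold pathDist
  refine le_iInf fun γ => le_iInf fun h1 => le_iInf fun h2 => le_iInf fun h3 => le_iInf fun h4 => ?_
  refine iInf_le_of_le (fun t => T (γ t)) (iInf_le_of_le (T.continuous.comp_continuousOn h1)
    (iInf_le_of_le (fun t ht => h ▸ mem_image_of_mem T (h2 t ht)) (iInf_le_of_le (by simp only [h3])
      (iInf_le_of_le (by simp only [h4]) ?_))))
  unfold eVariationOn
  simp only [T.edist_eq]
  exact le_rfl

theorem pathDist_eq (T : E3 ≃ᵢ E3) {S S' : Set E3} (h : T '' S = S') (p q : E3) :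
    pathDist S' (T p) (T q) = pathDist S p q := by
  apply le_antisymm (pathDist_le T h p q)
  have h' : T.symm '' S' = S := by
    rw [← h, image_image]; simp
  have := pathDist_le T.symm h' (T p) (T q)
  rwa [T.symm_apply_apply, T.symm_apply_apply] at this

theorem intrinsicFrontier_eq (T : E3 ≃ᵢ E3) {Q Q' : Set E3} (h : T '' Q = Q') :
    intrinsicFrontier ℝ Q' = T '' intrinsicFrontier ℝ Q := by
  have h1 := (T.toRealAffineIsometryEquiv.toAffineIsometry).intrinsicFrontier_image Q
  have h2 : ⇑(T.toRealAffineIsometryEquiv.toAffineIsometry) = ⇑T := rfl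
  rw [h2, h] at h1
  exact h1

theorem twoSidesDist_eq (T : E3 ≃ᵢ E3) {Q Q' : Set E3} (h : T '' Q = Q') (a c : E3 × Bool) :
    twoSidesDist Q' (T a.1, a.2) (T c.1, c.2) = twoSidesDist Q a c := by
  unfold twoSidesDist
  simp only [T.dist_eq]
  congr 2
  ext d
  rw [intrinsicFrontier_eq T h]
  simp only [mem_ofPred_eq, exists_mem_image, T.dist_eq]

theorem not_flat {Q : Set E3} (h : (interior Q).Nonempty)
    (h2 : Module.finrank ℝ (vectorSpan ℝ Q) = 2) : False := by
  have h3 : affineSpan ℝ Q = ⊤ :=
    affineSpan_eq_top_of_nonempty_interior (h.mono (interior_mono (subset_convexHull ℝ Q)))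
  have h4 : vectorSpan ℝ Q = ⊤ := by
    rw [← direction_affineSpan, h3, AffineSubspace.direction_top]
  rw [h4, finrank_top, finrank_euclideanSpace_fin] at h2
  omega

theorem interior_image (T : E3 ≃ᵢ E3) {Q Q' : Set E3} (h : T '' Q = Q') (hQ : (interior Q).Nonempty) :
    (interior Q').Nonempty := by
  rw [← h, ← T.coe_toHomeomorph, ← T.toHomeomorph.image_interior]
  exact hQ.image _

theorem isometric_of_image {M M' : Type} [MetricSpace M] [MetricSpace M'] (g : M → M')
    (h1 : ∀ p q, dist (g p) (g q) = dist p q) (h2 : Function.Surjective g) : Nonempty (M ≃ᵢ M') :=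
  ⟨IsometryEquiv.mk (Equiv.ofBijective g ⟨(Isometry.of_dist_eq h1).injective, h2⟩)
    (Isometry.of_dist_eq h1)⟩

/-- Congruent polyhedra have isometric surfaces. -/
theorem isometric_of_congruent {M M' : Type} [MetricSpace M] [MetricSpace M'] {Q Q' : Set E3}
    (h : IsSurfaceOf M Q) (h' : IsSurfaceOf M' Q') (hc : Congruent Q Q') : Nonempty (M ≃ᵢ M') := by
  obtain ⟨T, hT⟩ := hc
  have hT' : T.symm '' Q' = Q := by rw [← hT, image_image]; simp
  rcases h with ⟨-, ⟨hi, f, hf, hd⟩ | ⟨hi, f, hf, hd⟩⟩ <;>
    rcases h' with ⟨-, ⟨hi', f', hf', hd'⟩ | ⟨hi', f', hf', hd'⟩⟩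
  · have hfr : T '' frontier Q = frontier Q' := by
      rw [← hT, ← T.coe_toHomeomorph]; exact T.toHomeomorph.image_frontier Q
    have hex : ∀ m, ∃ m', f' m' = T (f m) := by
      intro m
      have : T (f m) ∈ range f' := by
        rw [hf', ← hfr]; exact mem_image_of_mem T (hf ▸ mem_range_self m)
      exact this
    choose g hg using hex
    refine isometric_of_image g (fun p q => ?_) (fun m' => ?_)
    · have e1 := hd' (g p) (g q)
      rw [hg, hg, pathDist_eq T hfr, ← hd] at e1
      exact (ENNReal.ofReal_eq_ofReal_iff dist_nonneg dist_nonneg).mp e1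
    · have h1 : f' m' ∈ T '' frontier Q := by rw [hfr, ← hf']; exact mem_range_self m'
      obtain ⟨z, hz, hz'⟩ := h1
      rw [← hf] at hz
      obtain ⟨m, rfl⟩ := hz
      refine ⟨m, ?_⟩
      have e1 := hd' (g m) m'
      have e2 := hd' m' m'
      rw [hg, hz', ← e2, dist_self] at e1
      exact dist_eq_zero.mp ((ENNReal.ofReal_eq_ofReal_iff dist_nonneg le_rfl).mp e1)
  · exact (not_flat (interior_image T hT hi) hi').elim
  · exact (not_flat (interior_image T.symm hT' hi') hi).elim
  · have hex : ∀ m, ∃ m', f' m' = (T (f m).1, (f m).2) := by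
      intro m
      have h1 : f m ∈ twoSides Q := hf ▸ mem_range_self m
      have : (T (f m).1, (f m).2) ∈ range f' := by
        rw [hf']
        refine ⟨hT ▸ mem_image_of_mem T h1.1, fun h2 h3 => h1.2 h2 ?_⟩
        rw [intrinsicFrontier_eq T hT] at h3
        obtain ⟨z, hz, hz'⟩ := h3
        rw [← T.injective hz']; exact hz
      exact this
    choose g hg using hex
    refine isometric_of_image g (fun p q => ?_) (fun m' => ?_)
    · rw [hd', hg, hg, twoSidesDist_eq T hT, ← hd]
    · have h1 : f' m' ∈ twoSides Q' := hf' ▸ mem_range_self m'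
      have h2 : (T.symm (f' m').1, (f' m').2) ∈ range f := by
        rw [hf]
        refine ⟨hT' ▸ mem_image_of_mem T.symm h1.1, fun h2 h3 => h1.2 h2 ?_⟩
        rw [intrinsicFrontier_eq T.symm hT'] at h3
        obtain ⟨z, hz, hz'⟩ := h3
        rw [← T.symm.injective hz']; exact hz
      obtain ⟨m, hm⟩ := h2
      refine ⟨m, ?_⟩
      apply dist_eq_zero.mp
      rw [hd', hg, hm]
      simp only [T.apply_symm_apply]
      have e2 := hd' m' m'
      rw [dist_self] at e2
      exact e2.symm

/-- Isometric surfaces in terms of representatives. -/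
theorem exists_mp (G : ConvexPolygon) (x y : ℝ) (e : Surface G x ≃ᵢ Surface G y) : ∃ ψ, Mp G x y ψ := by
  classical
  choose rep hrep using fun m : Surface G y => SeparationQuotient.surjective_mk (X := Pt G y) m
  have hd : ∀ (z : ℝ) (p q : Pt G z),
      dist (SeparationQuotient.mk p) (SeparationQuotient.mk q) = G.gdist z p.val q.val :=
    fun z p q => SeparationQuotient.dist_mk p q
  let mk : ∀ (p : ℂ), p ∈ G.carrier → Surface G x := fun p h => SeparationQuotient.mk ⟨p, h⟩
  let ψ : ℂ → ℂ := fun p => if h : p ∈ G.carrier then (rep (e (mk p h))).val else 0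
  have hψ : ∀ (p : ℂ) (h : p ∈ G.carrier), ψ p = (rep (e (mk p h))).val := fun p h => dif_pos h
  refine ⟨ψ, fun a ha => ?_, fun a ha b hb => ?_, fun c hc => ?_⟩
  · rw [hψ a ha]; exact (rep _).mem
  · rw [hψ a ha, hψ b hb, ← hd, hrep, hrep, e.dist_eq]
    exact hd x ⟨a, ha⟩ ⟨b, hb⟩
  · obtain ⟨p, hp⟩ := SeparationQuotient.surjective_mk (X := Pt G x)
      (e.symm (SeparationQuotient.mk (⟨c, hc⟩ : Pt G y)))
    refine ⟨p.val, p.mem, ?_⟩
    rw [hψ p.val p.mem]
    have h1 := hd y (rep (e (mk p.val p.mem))) ⟨c, hc⟩
    have h2 : mk p.val p.mem = e.symm (SeparationQuotient.mk (⟨c, hc⟩ : Pt G y)) := hp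
    rw [hrep, h2, e.apply_symm_apply, dist_self] at h1
    rw [h2, e.apply_symm_apply]
    exact h1.symm

/-- **Theorem.** Let `G` be a convex polygon.

1. For every `y`, the surface glued at `b x` is isometric to the surface glued at `b y` for only
   finitely many `x` in `[0, L)`.
2. If `X` is a set of boundary points (given by their positions in `[0, L)`) and the polyhedra `Q x`
   folded by the perimeter-halving gluings at `b x`, `x ∈ X`, are pairwise congruent, then `X` is
   finite. -/
theorem result (G : ConvexPolygon) :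
    (∀ y : ℝ, {x | x ∈ Ico 0 G.L ∧ Nonempty (Surface G x ≃ᵢ Surface G y)}.Finite) ∧
      ∀ (X : Set ℝ) (Q : ℝ → Set E3), X ⊆ Ico 0 G.L → (∀ x ∈ X, IsFolding G x (Q x)) →
        (∀ x ∈ X, ∀ y ∈ X, Congruent (Q x) (Q y)) → X.Finite := by
  have h1 : ∀ y : ℝ, {x | x ∈ Ico 0 G.L ∧ Nonempty (Surface G x ≃ᵢ Surface G y)}.Finite := by
    intro y
    refine (main G y).subset ?_
    rintro x ⟨hx, ⟨e⟩⟩
    exact ⟨hx, exists_mp G x y e⟩
  refine ⟨h1, fun X Q hX hQ hc => ?_⟩
  rcases X.eq_empty_or_nonempty with rfl | ⟨y, hy⟩
  · exact finite_empty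
  · refine (h1 y).subset fun x hx => ⟨hX hx, ?_⟩
    exact isometric_of_congruent (hQ x hx) (hQ y hy) (hc x hx y hy)

end Pool.Agent.Results.MP_d67387_co.FinitelyManyCongruent
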